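import Pool.Agent.H69.GN.Stm

/-!
Crew GN, part CEN: in a finite group of squarefree order two normal cyclic subgroups which contain
their centralizers are equal.
-/

set_option autoImplicit false

namespace Pool.Agent.H10.GN

open Pool.Agent.H69.GN Subgroup

theorem pow_conj {G : Type} [Group G] {a b c : G} (h : a * b = c * b * a) (hc : a * c = c * a)
    (k : ℕ) : a ^ k * b = c ^ k * b * a ^ k := by
  induction k with
  | zero => simp
  | succ k ih =>
    have h1 : a * c ^ k = c ^ k * a := (show Commute a c from hc).pow_right k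
    calc a ^ (k + 1) * b = a * (a ^ k * b) := by rw [pow_succ', mul_assoc]
      _ = a * c ^ k * b * a ^ k := by rw [ih]; simp only [mul_assoc]
      _ = c ^ k * (a * b) * a ^ k := by rw [h1]; simp only [mul_assoc]
      _ = c ^ k * (c * b * a) * a ^ k := by rw [h]
      _ = c ^ (k + 1) * b * a ^ (k + 1) := by
        rw [pow_succ c, pow_succ' a]; simp only [mul_assoc]

theorem commute_of {G : Type} [Group G] [Finite G] (hsq : Squarefree (Nat.card G))
    (N N' : Subgroup G) (hN : N.Normal) (hc : IsCyclic N) (hN' : N'.Normal) (hc' : IsCyclic N')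
    {a b : G} (ha : a ∈ N) (hb : b ∈ N') : a * b = b * a := by
  have comm1 : ∀ x ∈ N, ∀ y ∈ N, x * y = y * x := by
    intro x hx y hy
    have := hc.isMulCommutative.is_comm.comm ⟨x, hx⟩ ⟨y, hy⟩
    exact congrArg Subtype.val this
  have comm2 : ∀ x ∈ N', ∀ y ∈ N', x * y = y * x := by
    intro x hx y hy
    have := hc'.isMulCommutative.is_comm.comm ⟨x, hx⟩ ⟨y, hy⟩
    exact congrArg Subtype.val this
  obtain ⟨c, hcdef⟩ : ∃ c, c = a * b * a⁻¹ * b⁻¹ := ⟨_, rfl⟩
  have hcN : c ∈ N := by
    have h1 : b * a⁻¹ * b⁻¹ ∈ N := hN.conj_mem _ (N.inv_mem ha) b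
    have h2 : c = a * (b * a⁻¹ * b⁻¹) := by rw [hcdef]; simp only [mul_assoc]
    rw [h2]; exact N.mul_mem ha h1
  have hcN' : c ∈ N' := by
    have h1 : a * b * a⁻¹ ∈ N' := hN'.conj_mem _ hb a
    rw [hcdef]; exact N'.mul_mem h1 (N'.inv_mem hb)
  have hab : a * b = c * b * a := by rw [hcdef]; group
  have hac : a * c = c * a := comm1 a ha c hcN
  -- the exponent
  have hNN : (N'.subgroupOf N).Normal := inferInstance
  have h1 : a ^ (N'.subgroupOf N).index ∈ N' := by
    have := (N'.subgroupOf N).pow_index_mem ⟨a, ha⟩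
    rw [Subgroup.mem_subgroupOf] at this
    simpa using this
  have h2 : c ^ (N'.subgroupOf N).index = 1 := by
    have h3 := pow_conj hab hac (N'.subgroupOf N).index
    rw [comm2 _ h1 b hb, mul_assoc] at h3
    exact (mul_eq_right.1 h3.symm)
  have h4 : c ^ Nat.card (N'.subgroupOf N) = 1 := by
    have h5 : (⟨c, hcN⟩ : N) ∈ N'.subgroupOf N := by
      rw [Subgroup.mem_subgroupOf]; exact hcN'
    have h6 : (⟨⟨c, hcN⟩, h5⟩ : N'.subgroupOf N) ^ Nat.card (N'.subgroupOf N) = 1 :=
      pow_card_eq_one'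
    exact congrArg (fun z : N'.subgroupOf N => ((z : N) : G)) h6
  have hcop : Nat.Coprime (Nat.card (N'.subgroupOf N)) (N'.subgroupOf N).index := by
    apply Nat.coprime_of_squarefree_mul
    rw [(N'.subgroupOf N).card_mul_index]
    exact hsq.squarefree_of_dvd N.card_subgroup_dvd_card
  have h8 : orderOf c ∣ 1 := by
    rw [← hcop]
    exact Nat.dvd_gcd (orderOf_dvd_of_pow_eq_one h4) (orderOf_dvd_of_pow_eq_one h2)
  have h9 : c = 1 := orderOf_eq_one_iff.1 (Nat.dvd_one.1 h8)
  rw [hab, h9, one_mul]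

theorem t_CEN : S_CEN := by
  intro G _ _ hsq N N' hN hc hcen hN' hc' hcen'
  apply le_antisymm
  · intro a ha
    apply hcen'
    rw [Subgroup.mem_centralizer_iff]
    intro b hb
    exact (commute_of hsq N N' hN hc hN' hc' ha hb).symm
  · intro b hb
    apply hcen
    rw [Subgroup.mem_centralizer_iff]
    intro a ha
    exact commute_of hsq N N' hN hc hN' hc' ha hb

end Pool.Agent.H10.GN
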