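import Pool.Agent.H69.GN.Stm

/-!
Crew GN, part SPL: a group of squarefree order with a normal cyclic subgroup which contains its
centralizer is a semidirect product `ℤ/m ⋊ U`, `U` a subgroup of `(ℤ/m)ˣ` (Schur-Zassenhaus).
-/

set_option autoImplicit false

namespace Pool.Agent.H10.GN

open Pool.Agent.H69.GN Subgroup

theorem act_apply (m : ℕ) (U : Subgroup (ZMod m)ˣ) (u : U) (x : Multiplicative (ZMod m)) :
    act m U u x = Multiplicative.ofAdd (((u : (ZMod m)ˣ) : ZMod m) * Multiplicative.toAdd x) := rfl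

theorem addAut_apply (m : ℕ) (f : AddAut (ZMod m)) (x : ZMod m) : f x = f 1 * x := by
  rw [mul_comm, ← x.intCast_zmod_cast, ← zsmul_eq_mul, ← map_zsmul, zsmul_one]

theorem mulAut_apply (N : Type) [Group N] [h : IsCyclic N] (f : MulAut N) (x : N) :
    (zmodCyclicMulEquiv h).symm (f x) = Multiplicative.ofAdd
      (((IsCyclic.mulAutMulEquiv N f : (ZMod (Nat.card N))ˣ) : ZMod (Nat.card N)) *
        Multiplicative.toAdd ((zmodCyclicMulEquiv h).symm x)) := by
  set e := zmodCyclicMulEquiv h with he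
  let g : AddAut (ZMod (Nat.card N)) :=
    MulAutMultiplicative (ZMod (Nat.card N)) ((MulAut.congr e).symm f)
  have hg : ∀ y : ZMod (Nat.card N), g y = Multiplicative.toAdd (e.symm (f (e (Multiplicative.ofAdd y)))) :=
    fun y => rfl
  have h1 : ((IsCyclic.mulAutMulEquiv N f : (ZMod (Nat.card N))ˣ) : ZMod (Nat.card N)) = g 1 := rfl
  rw [h1, ← addAut_apply, hg]
  simp

theorem t_SPL : S_SPL := by
  intro G _ _ hsq N hN hcyc hcen
  have _ := hN
  have _ := hcyc
  have hcop : Nat.Coprime (Nat.card N) N.index := by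
    apply Nat.coprime_of_squarefree_mul
    rw [N.card_mul_index]; exact hsq
  obtain ⟨H, hH⟩ := exists_right_complement'_of_coprime hcop
  let φ : H →* MulAut N := (N.normalizerMonoidHom).comp (inclusion (N.normalizer_eq_top ▸ le_top))
  have hφ : ∀ (h : H) (n : N), ((φ h n : N) : G) = h * n * (h:G)⁻¹ := fun h n => rfl
  have hφinj : Function.Injective φ := by
    rw [injective_iff_map_eq_one]
    intro h hh
    have h1 : (h : G) ∈ Subgroup.centralizer (N : Set G) := by
      rw [Subgroup.mem_centralizer_iff]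
      intro n hn
      have h3 := hφ h ⟨n, hn⟩
      rw [hh] at h3
      have h4 : n = h * n * (h:G)⁻¹ := h3
      calc n * (h : G) = (h * n * (h:G)⁻¹) * h := by rw [← h4]
        _ = h * n := by group
    have h2 : (h : G) ∈ N ⊓ H := ⟨hcen h1, h.2⟩
    rw [hH.disjoint.eq_bot] at h2
    exact Subtype.ext (Subgroup.mem_bot.1 h2)
  let ψ : H →* (ZMod (Nat.card N))ˣ := (IsCyclic.mulAutMulEquiv N).toMonoidHom.comp φ
  have hψinj : Function.Injective ψ := (IsCyclic.mulAutMulEquiv N).injective.comp hφinj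
  let fg : H ≃* ψ.range := MonoidHom.ofInjective hψinj
  have hcard : Nat.card N * Nat.card ψ.range = Nat.card G := by
    rw [← Nat.card_congr fg.toEquiv]
    exact hH.card_mul_card
  refine ⟨Nat.card N, ψ.range, Nat.card_pos, hcard, ⟨(SemidirectProduct.mulEquivSubgroup hH).symm.trans
    (SemidirectProduct.congr (zmodCyclicMulEquiv hcyc).symm fg ?_)⟩⟩
  intro g
  ext x
  rw [MulEquiv.trans_apply, MulEquiv.trans_apply, act_apply]
  exact mulAut_apply N (φ g) x

end Pool.Agent.H10.GN
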